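import Mathlib

/-!
A `2`-adic Padé argument: no sequence of natural numbers satisfies
`2 ^ (2 m + 4) u (m + 1) = 3 ^ (2 m + 1) u m + 1` for all `m ≥ 2`.
-/

namespace Pool.Agent.Lib.MP_106823_nt

/-- Iterated difference operators. -/
def Z {R : Type*} [CommRing R] (u : ℕ → R) : ℕ → ℕ → R
  | 0, m => u m
  | j + 1, m => 9 ^ (j + 1) * Z u j (m + 1) - 4 ^ j * Z u j m

lemma Z_map {R S : Type*} [CommRing R] [CommRing S] (f : R →+* S) (u : ℕ → R) (j m : ℕ) :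
    f (Z u j m) = Z (fun i => f (u i)) j m := by
  induction j generalizing m with
  | zero => rfl
  | succ j ih => simp [Z, ih, map_ofNat]

section expansion
variable {R : Type*} [CommRing R] (τ : R) (hτ : 3 * τ = 1) (u : ℕ → R)
  (hu : ∀ m, 2 ≤ m → 2 ^ (2 * m + 4) * u (m + 1) = 3 ^ (2 * m + 1) * u m + 1)
include hτ hu

lemma expand (T m : ℕ) (hm : 2 ≤ m) :
    u m = -∑ n ∈ Finset.range T, 2 ^ (n ^ 2 + 3 * n) * τ ^ ((n + 1) ^ 2) * (4 ^ n * τ ^ (2 * (n + 1))) ^ m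
      + 2 ^ (T ^ 2 + 3 * T) * τ ^ (T ^ 2) * (4 ^ T * τ ^ (2 * T)) ^ m * u (m + T) := by
  induction T with
  | zero => simp
  | succ T ih =>
    have h1 := hu (m + T) (by omega)
    have h2 : u (m + T) = τ ^ (2 * (m + T) + 1) * (2 ^ (2 * (m + T) + 4) * u (m + T + 1) - 1) := by
      rw [h1, add_sub_cancel_right, ← mul_assoc, ← mul_pow, mul_comm τ 3, hτ, one_pow, one_mul]
    have h4 : ∀ n : ℕ, (4 : R) ^ n = 2 ^ (2 * n) := fun n => by rw [pow_mul]; norm_num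
    rw [Finset.sum_range_succ, ih, h2, ← add_assoc m T 1, h4 T, h4 (T + 1)]
    simp only [mul_pow, ← pow_mul]
    ring

lemma expandZ (T j : ℕ) (hj : j ≤ T) : ∀ m, 2 ≤ m → ∃ w : R,
    Z u j m = -∑ n ∈ Finset.range T, 2 ^ (n ^ 2 + 3 * n) * τ ^ ((n + 1) ^ 2) *
      (∏ i ∈ Finset.range j, (9 ^ (i + 1) * (4 ^ n * τ ^ (2 * (n + 1))) - 4 ^ i)) *
        (4 ^ n * τ ^ (2 * (n + 1))) ^ m
      + 2 ^ (T ^ 2 + 3 * T) * (∏ i ∈ Finset.range j, 4 ^ i) * 4 ^ (T * m) * w := by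
  induction j with
  | zero =>
    intro m hm
    refine ⟨τ ^ (T ^ 2) * (τ ^ (2 * T)) ^ m * u (m + T), ?_⟩
    rw [Z, expand τ hτ u hu T m hm]
    simp only [Finset.range_zero, Finset.prod_empty]
    rw [mul_pow, ← pow_mul]
    congr 1
    · simp
    · ring
  | succ j ih =>
    intro m hm
    obtain ⟨w1, h1⟩ := ih (by omega) (m + 1) (by omega)
    obtain ⟨w2, h2⟩ := ih (by omega) m hm
    obtain ⟨d, rfl⟩ : ∃ d, T = j + d := ⟨T - j, by omega⟩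
    refine ⟨9 ^ (j + 1) * 4 ^ d * w1 - w2, ?_⟩
    rw [Z, h1, h2, Finset.prod_range_succ]
    have : ∑ n ∈ Finset.range (j + d), (2 : R) ^ (n ^ 2 + 3 * n) * τ ^ ((n + 1) ^ 2) *
      (∏ i ∈ Finset.range (j + 1), (9 ^ (i + 1) * (4 ^ n * τ ^ (2 * (n + 1))) - 4 ^ i)) *
        (4 ^ n * τ ^ (2 * (n + 1))) ^ m
      = 9 ^ (j + 1) * ∑ n ∈ Finset.range (j + d), 2 ^ (n ^ 2 + 3 * n) * τ ^ ((n + 1) ^ 2) *
      (∏ i ∈ Finset.range j, (9 ^ (i + 1) * (4 ^ n * τ ^ (2 * (n + 1))) - 4 ^ i)) *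
        (4 ^ n * τ ^ (2 * (n + 1))) ^ (m + 1)
      - 4 ^ j * ∑ n ∈ Finset.range (j + d), 2 ^ (n ^ 2 + 3 * n) * τ ^ ((n + 1) ^ 2) *
      (∏ i ∈ Finset.range j, (9 ^ (i + 1) * (4 ^ n * τ ^ (2 * (n + 1))) - 4 ^ i)) *
        (4 ^ n * τ ^ (2 * (n + 1))) ^ m := by
      rw [Finset.mul_sum, Finset.mul_sum, ← Finset.sum_sub_distrib]
      refine Finset.sum_congr rfl fun n _ => ?_
      rw [Finset.prod_range_succ, pow_succ _ m]
      ring
    rw [this]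
    ring

omit hu in
lemma factor_eq (i d : ℕ) :
    (9 : R) ^ (i + 1) * (4 ^ (i + d) * τ ^ (2 * (i + d + 1))) - 4 ^ i
      = 4 ^ i * (4 ^ d * τ ^ (2 * d) - 1) := by
  have h : (9 : R) ^ (i + 1) * τ ^ (2 * (i + 1)) = 1 := by
    rw [show (9 : R) = 3 ^ 2 by norm_num, ← pow_mul, ← mul_pow, hτ, one_pow]
  have e : τ ^ (2 * (i + d + 1)) = τ ^ (2 * (i + 1)) * τ ^ (2 * d) := by
    rw [← pow_add]; congr 1; ring
  rw [e]
  linear_combination (4 ^ (i + d) * τ ^ (2 * d)) * h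

lemma Z_exact (N m : ℕ) (hm : 2 ≤ m) : ∃ w : R,
    Z u N m = 2 ^ (N ^ 2 + 3 * N) * (∏ i ∈ Finset.range N, 4 ^ i) * 4 ^ (N * m) *
      (-(τ ^ ((N + 1) ^ 2) * (τ ^ (2 * (N + 1))) ^ m *
        ∏ i ∈ Finset.range N, (4 ^ (N - i) * τ ^ (2 * (N - i)) - 1)) + 2 * w) := by
  obtain ⟨w, hw⟩ := expandZ τ hτ u hu (N + 1) N (by omega) m hm
  refine ⟨2 ^ (2 * N + 3) * 4 ^ m * w, ?_⟩
  rw [hw, Finset.sum_range_succ, Finset.sum_eq_zero, zero_add]
  · have : ∏ i ∈ Finset.range N, ((9 : R) ^ (i + 1) * (4 ^ N * τ ^ (2 * (N + 1))) - 4 ^ i)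
        = (∏ i ∈ Finset.range N, 4 ^ i) *
          ∏ i ∈ Finset.range N, (4 ^ (N - i) * τ ^ (2 * (N - i)) - 1) := by
      rw [← Finset.prod_mul_distrib]
      refine Finset.prod_congr rfl fun i hi => ?_
      rw [← factor_eq τ hτ i (N - i), Nat.add_sub_cancel' (Finset.mem_range.mp hi).le]
    rw [this, mul_pow, ← pow_mul]
    ring
  · intro n hn
    rw [Finset.prod_eq_zero hn]
    · simp
    · have := factor_eq τ hτ n 0
      simpa using this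

end expansion

lemma prod_four (N : ℕ) : (∏ i ∈ Finset.range N, (4 : ℤ) ^ i) * 2 ^ N = 2 ^ (N ^ 2) := by
  induction N with
  | zero => simp
  | succ N ih =>
    have h4 : (4 : ℤ) ^ N = 2 ^ (2 * N) := by rw [pow_mul]; norm_num
    rw [Finset.prod_range_succ, show (N + 1) ^ 2 = N ^ 2 + (2 * N + 1) by ring,
      pow_add 2 (N ^ 2), ← ih, h4]
    ring

lemma Z_lower (u : ℕ → ℤ)
    (hu : ∀ m, 2 ≤ m → 2 ^ (2 * m + 4) * u (m + 1) = 3 ^ (2 * m + 1) * u m + 1)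
    (N m : ℕ) (hm : 2 ≤ m) : 2 ^ (2 * N ^ 2 + 2 * N + 2 * N * m) ≤ |Z u N m| := by
  have h3 : IsUnit (3 : ℤ_[2]) := by
    rw [PadicInt.isUnit_iff]
    have : ‖((3 : ℤ) : ℤ_[2])‖ = 1 := by
      rw [PadicInt.norm_intCast_eq_one_iff]
      exact ⟨1, -1, by norm_num⟩
    exact_mod_cast this
  obtain ⟨τ, hτ⟩ := h3.exists_right_inv
  obtain ⟨w, hw⟩ := Z_exact τ hτ (fun i => (Int.castRingHom ℤ_[2]) (u i))
    (fun m hm => by
      have := congrArg (Int.castRingHom ℤ_[2]) (hu m hm)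
      simpa [map_ofNat] using this) N m hm
  rw [← Z_map] at hw
  have hp : Prime (2 : ℤ_[2]) := by exact_mod_cast PadicInt.prime_p (p := 2)
  have hτu : ¬ (2 : ℤ_[2]) ∣ τ := by
    intro h
    exact hp.not_dvd_one (hτ ▸ h.mul_left 3)
  have he : (2 : ℤ_[2]) ^ (N ^ 2 + 3 * N) * (∏ i ∈ Finset.range N, 4 ^ i) * 4 ^ (N * m)
      = 2 ^ (2 * N ^ 2 + 2 * N + 2 * N * m) := by
    have := congrArg (Int.castRingHom ℤ_[2]) (prod_four N)
    simp only [map_mul, map_prod, map_pow, map_ofNat] at this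
    rw [show 2 * N ^ 2 + 2 * N + 2 * N * m = N ^ 2 + (N ^ 2 + 2 * N + 2 * N * m) by ring, pow_add 2 (N ^ 2) (N ^ 2 + 2 * N + 2 * N * m),
      ← this, show (4 : ℤ_[2]) ^ (N * m) = 2 ^ (2 * (N * m)) by rw [pow_mul 2 2]; norm_num]
    ring
  rw [he] at hw
  have hne : Z u N m ≠ 0 := by
    intro h0
    rw [h0, map_zero] at hw
    have h1 := (mul_eq_zero.mp hw.symm).resolve_left (pow_ne_zero _ hp.ne_zero)
    have h2 : (2 : ℤ_[2]) ∣ τ ^ ((N + 1) ^ 2) * (τ ^ (2 * (N + 1))) ^ m *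
        ∏ i ∈ Finset.range N, (4 ^ (N - i) * τ ^ (2 * (N - i)) - 1) :=
      ⟨w, by linear_combination -h1⟩
    rcases hp.dvd_or_dvd h2 with h | h
    · rcases hp.dvd_or_dvd h with h | h
      · exact hτu (hp.dvd_of_dvd_pow h)
      · exact hτu (hp.dvd_of_dvd_pow (hp.dvd_of_dvd_pow h))
    · obtain ⟨i, hi, h⟩ := (hp.dvd_finsetProd_iff _).mp h
      have h4 : (2 : ℤ_[2]) ∣ 4 ^ (N - i) * τ ^ (2 * (N - i)) := by
        apply Dvd.dvd.mul_right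
        apply Dvd.dvd.pow ⟨2, by norm_num⟩
        have := Finset.mem_range.mp hi
        omega
      exact hp.not_dvd_one ((dvd_sub_right h4).mp h)
  have hdvd : (2 : ℤ) ^ (2 * N ^ 2 + 2 * N + 2 * N * m) ∣ Z u N m := by
    have := (PadicInt.pow_p_dvd_int_iff (p := 2) (2 * N ^ 2 + 2 * N + 2 * N * m) (Z u N m)).mp
      ⟨_, by exact_mod_cast hw⟩
    exact_mod_cast this
  exact Int.le_of_dvd (abs_pos.mpr hne) ((dvd_abs _ _).mpr hdvd)

/-- The comparison sequence. -/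
noncomputable def bb (m : ℕ) : ℝ := 3 ^ (m ^ 2) / 2 ^ (m ^ 2 + 2 * m)

lemma bb_pos (m : ℕ) : 0 < bb m := by unfold bb; positivity

lemma bb_succ (m : ℕ) : bb (m + 1) = 3 ^ (2 * m + 1) / 2 ^ (2 * m + 3) * bb m := by
  unfold bb
  field_simp
  ring

lemma bb_mono (m : ℕ) (hm : 2 ≤ m) : bb m ≤ bb (m + 1) := by
  rw [bb_succ]
  apply le_mul_of_one_le_left (bb_pos m).le
  rw [one_le_div (by positivity)]
  obtain ⟨d, rfl⟩ := Nat.exists_eq_add_of_le hm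
  have : (2 : ℝ) ^ (2 * d) ≤ 3 ^ (2 * d) := by gcongr; norm_num
  rw [show 2 * (2 + d) + 3 = 2 * d + 7 by ring, show 2 * (2 + d) + 1 = 2 * d + 5 by ring, pow_add,
    pow_add]
  nlinarith [pow_pos (show (0 : ℝ) < 2 by norm_num) (2 * d)]

lemma Z_upper (u : ℕ → ℝ) (C : ℝ) (hC : 0 ≤ C) (hu : ∀ m, 2 ≤ m → |u m| ≤ C * bb m) (j : ℕ) :
    ∀ m, 2 ≤ m → |Z u j m| ≤ 2 ^ j * 3 ^ (j * (j + 1)) * (C * bb (m + j)) := by
  induction j with
  | zero => intro m hm; simpa [Z] using hu m hm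
  | succ j ih =>
    intro m hm
    have h1 := ih (m + 1) (by omega)
    have h2 := ih m hm
    have h3 : C * bb (m + j) ≤ C * bb (m + (j + 1)) :=
      mul_le_mul_of_nonneg_left (bb_mono (m + j) (by omega)) hC
    rw [show m + 1 + j = m + (j + 1) by ring] at h1
    have h4 : |Z u j m| ≤ 2 ^ j * 3 ^ (j * (j + 1)) * (C * bb (m + (j + 1))) :=
      h2.trans (mul_le_mul_of_nonneg_left h3 (by positivity))
    have h5 : (4 : ℝ) ^ j ≤ 9 ^ (j + 1) := by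
      calc (4 : ℝ) ^ j ≤ 9 ^ j := by gcongr; norm_num
        _ ≤ 9 ^ (j + 1) := by gcongr <;> norm_num
    have h6 : (9 : ℝ) ^ (j + 1) = 3 ^ (2 * (j + 1)) := by rw [pow_mul]; norm_num
    rw [Z]
    calc |9 ^ (j + 1) * Z u j (m + 1) - 4 ^ j * Z u j m|
        ≤ 9 ^ (j + 1) * |Z u j (m + 1)| + 4 ^ j * |Z u j m| := by
          refine (abs_sub _ _).trans ?_
          rw [abs_mul, abs_mul, abs_of_pos (by positivity : (0 : ℝ) < 9 ^ (j + 1)),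
            abs_of_pos (by positivity : (0 : ℝ) < 4 ^ j)]
      _ ≤ 9 ^ (j + 1) * (2 ^ j * 3 ^ (j * (j + 1)) * (C * bb (m + (j + 1))))
          + 9 ^ (j + 1) * (2 ^ j * 3 ^ (j * (j + 1)) * (C * bb (m + (j + 1)))) := by
          gcongr
      _ = 2 ^ (j + 1) * 3 ^ ((j + 1) * (j + 1 + 1)) * (C * bb (m + (j + 1))) := by
          rw [h6]; ring

theorem no_sequence (u : ℕ → ℕ)
    (hu : ∀ m, 2 ≤ m → 2 ^ (2 * m + 4) * u (m + 1) = 3 ^ (2 * m + 1) * u m + 1) : False := by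
  have hu' : ∀ m, 2 ≤ m → (2 : ℤ) ^ (2 * m + 4) * (u (m + 1) : ℤ) = 3 ^ (2 * m + 1) * (u m : ℤ) + 1 :=
    fun m hm => by exact_mod_cast hu m hm
  set C : ℝ := (u 2 + 1) / bb 2 with hC
  have hC0 : 0 < C := by have := bb_pos 2; positivity
  have hb : ∀ m, 2 ≤ m → (u m : ℝ) + 1 ≤ C * bb m ∨ (1 ≤ u m ∧ (u m : ℝ) ≤ C * bb m) := by
    intro m hm
    induction m, hm using Nat.le_induction with
    | base => left; rw [hC, div_mul_cancel₀ _ (bb_pos 2).ne']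
    | succ m hm ih =>
      right
      have h1 := hu m hm
      have h2 : (2 : ℝ) ^ (2 * m + 4) * u (m + 1) = 3 ^ (2 * m + 1) * u m + 1 := by exact_mod_cast h1
      refine ⟨?_, ?_⟩
      · by_contra h
        rw [show u (m + 1) = 0 by omega] at h1
        omega
      · have h3 : (1 : ℝ) ≤ 3 ^ (2 * m + 1) := one_le_pow₀ (by norm_num)
        have h4 : (3 : ℝ) ^ (2 * m + 1) * u m + 1 ≤ 2 * (3 ^ (2 * m + 1) * (C * bb m)) := by
          have hu0 : (0 : ℝ) ≤ u m := Nat.cast_nonneg _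
          rcases ih with ih | ⟨ih1, ih⟩
          · nlinarith
          · have : (1 : ℝ) ≤ u m := by exact_mod_cast ih1
            nlinarith
        rw [bb_succ, ← h2, pow_succ (2 : ℝ) (2 * m + 3)] at *
        rw [show C * (3 ^ (2 * m + 1) / 2 ^ (2 * m + 3) * bb m)
          = 3 ^ (2 * m + 1) * (C * bb m) / 2 ^ (2 * m + 3) by ring, le_div_iff₀ (by positivity)]
        linarith
  have hb2 : ∀ m, 2 ≤ m → |(u m : ℝ)| ≤ C * bb m := by
    intro m hm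
    rw [abs_of_nonneg (Nat.cast_nonneg _)]
    rcases hb m hm with h | h
    · linarith
    · exact h.2
  obtain ⟨N, hN⟩ := pow_unbounded_of_one_lt C (show (1 : ℝ) < 2 by norm_num)
  set M := N + 2 with hM
  have hM2 : C < 2 ^ M := hN.trans_le (pow_le_pow_right₀ (by norm_num) (by omega))
  have h1 := Z_lower (fun i => (u i : ℤ)) hu' M M (by omega)
  have h2 := Z_upper (fun i => (u i : ℝ)) C hC0.le hb2 M M (by omega)
  have h3 : ((Z (fun i => (u i : ℤ)) M M : ℤ) : ℝ) = Z (fun i => (u i : ℝ)) M M := by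
    simpa using Z_map (Int.castRingHom ℝ) (fun i => (u i : ℤ)) M M
  have h4 : (2 : ℝ) ^ (2 * M ^ 2 + 2 * M + 2 * M * M) ≤ |Z (fun i => (u i : ℝ)) M M| := by
    rw [← h3]; exact_mod_cast h1
  have h5 := h4.trans h2
  unfold bb at h5
  rw [← mul_div_assoc, ← mul_div_assoc, le_div_iff₀ (by positivity)] at h5
  have e1 : (2 : ℝ) ^ (2 * M ^ 2 + 2 * M + 2 * M * M) * 2 ^ ((M + M) ^ 2 + 2 * (M + M))
      = 256 ^ (M ^ 2) * (2 ^ M * 2 ^ M * 16 ^ M) := by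
    rw [show (256 : ℝ) = 2 ^ 8 by norm_num, show (16 : ℝ) = 2 ^ 4 by norm_num, ← pow_mul, ← pow_mul]
    ring
  have e2 : (2 : ℝ) ^ M * 3 ^ (M * (M + 1)) * (C * 3 ^ (M + M) ^ 2)
      = 243 ^ (M ^ 2) * (2 ^ M * C * 3 ^ M) := by
    rw [show (243 : ℝ) = 3 ^ 5 by norm_num, ← pow_mul]
    ring
  rw [e1, e2] at h5
  have h6 : (243 : ℝ) ^ (M ^ 2) * (2 ^ M * C * 3 ^ M) < 256 ^ (M ^ 2) * (2 ^ M * 2 ^ M * 16 ^ M) := by
    apply mul_lt_mul' (by gcongr; norm_num) _ (by positivity) (by positivity)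
    apply mul_lt_mul (by gcongr) (by gcongr; norm_num) (by positivity) (by positivity)
  linarith

end Pool.Agent.Lib.MP_106823_nt
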